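import Pool.Agent.Y107.SJ.Defs
import Pool.Agent.Y107.SK.Tower

/-!
# Towers of hypersurfaces: the theorems in terms of the definitions of `SJ.Defs`
-/

set_option autoImplicit false
set_option linter.unusedSectionVars false

open CategoryTheory AlgebraicGeometry

universe u v w

namespace Pool.Agent.Y107.SJ

open Pool.Agent.H914 Pool.Agent.H914.VarClass Pool.Agent.H914.VarClass.Obj Pool.Agent.W492.BB
  Pool.Agent.TH133

variable {k : Type u} [Field k] {𝒱 : VarClass k} {C : TheoryData.{u, v, 0} 𝒱 ℚ}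

/-- The polarized variety in the sense of `SK`. -/
noncomputable def old (P : Pol C) : SK.Pol C where
  X := P.X
  h := P.h
  D := P.D
  h_mem := P.h_mem
  D_ne := P.D_ne
  degree := P.degree

lemma triv_old (P : Pol C) : SK.triv (old P) = triv P := rfl

lemma prim_old (P : Pol C) : SK.prim (old P) = prim P := rfl

lemma con_old {P : Pol C} {c : ℕ} : HasConiveau P c ↔ SK.HasConiveau (old P) c := Iff.rfl

variable {V X₁ X₂ Y₁ Y₂ : Pol C}

/-- The diagram in the sense of `SK`. -/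
noncomputable def oldD (D : Diagram V X₁ X₂ Y₁ Y₂) :
    SK.Diagram C (old V).X (old X₁).X (old X₂).X (old Y₁).X (old Y₂).X where
  W := D.W
  E := D.E
  q := D.q
  π := D.π
  j := D.j
  σ := D.σ
  s := D.s
  t := D.t
  i₁ := D.i₁
  i₂ := D.i₂
  j₁ := D.j₁
  j₂ := D.j₂
  G := D.G
  γ₁ := D.γ₁
  γ₂ := D.γ₂
  γ := D.γ

lemma blowUp_old {D : Diagram V X₁ X₂ Y₁ Y₂} (h : D.IsBlowUp) :
    SK.Diagram.IsBlowUp (V := old V) (X₁ := old X₁) (X₂ := old X₂) (Y₁ := old Y₁) (Y₂ := old Y₂)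
      (oldD D) where
  dim_W := h.dim_W
  dim_E := h.dim_E
  dim_V := h.dim_V
  dim_X₁ := h.dim_X₁
  dim_X₂ := h.dim_X₂
  j_π := h.j_π
  diag := h.diag
  strict₁ := h.strict₁
  strict₂ := h.strict₂

lemma polarized_old {D : Diagram V X₁ X₂ Y₁ Y₂} (h : D.IsPolarized) :
    SK.Diagram.IsPolarized (V := old V) (X₁ := old X₁) (X₂ := old X₂) (Y₁ := old Y₁)
      (Y₂ := old Y₂) (oldD D) where
  s_one := h.s_h.1.trans (pow_one _)
  t_one := h.t_h.1.trans (pow_one _)
  s_h := h.s_h.2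
  t_h := h.t_h.2
  i₁_h := h.i₁_h.2
  i₂_h := h.i₂_h.2
  i₁_one := h.i₁_h.1
  i₂_one := h.i₂_h.1
  j₁_q := h.j₁_q
  j₂_q := h.j₂_q
  q_one := h.q_one
  q_h := h.q_h
  mul_h := h.mul_h

lemma equivariant_old {D : Diagram V X₁ X₂ Y₁ Y₂} (h : D.IsEquivariant) :
    SK.Diagram.IsEquivariant (V := old V) (X₁ := old X₁) (X₂ := old X₂) (Y₁ := old Y₁)
      (Y₂ := old Y₂) (oldD D) where
  nonempty := h.nonempty
  γ_π := h.γ_π
  γ_q := h.γ_q
  γ₁_h := h.γ₁_h
  γ₂_h := h.γ₂_h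
  avg₁ := h.avg₁
  avg₂ := h.avg₂

lemma sk_old (h : ShiodaKatsura V X₁ X₂ Y₁ Y₂) :
    SK.ShiodaKatsura (old V) (old X₁) (old X₂) (old Y₁) (old Y₂) := by
  obtain ⟨D, h1, h2, h3⟩ := h
  exact ⟨oldD D, blowUp_old h1, polarized_old h2, equivariant_old h3⟩

lemma tower_old {α : ℕ → ℕ} {Y X y x x' : ℕ → Pol C} (h : IsTower α Y X y x x') :
    SK.IsTower α (fun r => old (Y r)) (fun r => old (X r)) (fun r => old (y r))
      (fun r => old (x r)) (fun r => old (x' r)) where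
  Y_zero := congrArg old h.Y_zero
  X_zero := congrArg old h.X_zero
  skY := fun r => sk_old (h.skY r)
  skX := fun r => sk_old (h.skX r)
  con_x := fun r => con_old.1 (h.con_x r)
  con_x' := fun r => con_old.1 (h.con_x' r)
  con_y := fun r => con_old.1 (h.con_y r)

section chow

variable [hC : IsChowProj C]

include hC

/-- The coniveau of `V`. -/
theorem coniveau_step (h : ShiodaKatsura V X₁ X₂ Y₁ Y₂) {a₁ a₂ b₁ b₂ c : ℕ}
    (hX₁ : HasConiveau X₁ a₁) (hX₂ : HasConiveau X₂ a₂) (hY₁ : HasConiveau Y₁ b₁)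
    (hY₂ : HasConiveau Y₂ b₂) (h1 : c ≤ a₁ + a₂) (h2 : c ≤ b₁ + b₂ + 1) : HasConiveau V c :=
  con_old.2 (SK.coniveau_step (sk_old h) (con_old.1 hX₁) (con_old.1 hX₂) (con_old.1 hY₁)
    (con_old.1 hY₂) h1 h2)

/-- The coniveau of the hypersurfaces of a tower. -/
theorem tower {α : ℕ → ℕ} {Y X y x x' : ℕ → Pol C} (h : IsTower α Y X y x x') (r : ℕ) :
    HasConiveau (X r) (∑ s ∈ Finset.range (r + 1), α s) ∧
      HasConiveau (Y r) (∑ s ∈ Finset.range (r + 1), α s - 1) := by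
  have h1 := SK.tower (tower_old h) r
  exact ⟨con_old.2 h1.1, con_old.2 h1.2⟩

/-- The case where the coniveau of one of the `y s` is at least `α s`. -/
theorem tower' {α : ℕ → ℕ} {Y X y x x' : ℕ → Pol C} (h : IsTower α Y X y x x') (r s : ℕ)
    (hs : s ≤ r) (hy : HasConiveau (y s) (α s)) :
    HasConiveau (Y r) (∑ s ∈ Finset.range (r + 1), α s) :=
  con_old.2 (SK.tower' (tower_old h) r s hs (con_old.1 hy))

theorem blochUpTo {c : ℕ} (h : HasConiveau V c) : BlochUpTo c V := by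
  intro i hi hn x hx
  exact SK.blochUpTo (con_old.1 h) i hi hn x hx

end chow

section weil

variable [hC : IsChowProj C] {K : Type w} [Field K] {H : WeilTheoryData.{u, v, w} C K}
  [hH : IsWeilProj H]

include hC hH

theorem hartshorneUpTo {c : ℕ} (h : HasConiveau V c) (hL : IsLefschetz H V)
    (hP : PicardProperty H) : HartshorneUpTo (c + 1) V := by
  intro i hi hn x hx
  exact SK.hartshorneUpTo (con_old.1 h) hL hP i hi hn x hx

end weil

end Pool.Agent.Y107.SJ
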