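import Pool.Agent.TH133.Defs

/-!
# Polarized varieties, Chow coniveau and diagrams of Shioda and Katsura: definitions
-/

set_option autoImplicit false

open CategoryTheory AlgebraicGeometry

universe u v w

namespace Pool.Agent.Y107.SJ

open Pool.Agent.H914 Pool.Agent.H914.VarClass Pool.Agent.H914.VarClass.Obj Pool.Agent.W492.BB
  Pool.Agent.TH133

variable {k : Type u} [Field k] {𝒱 : VarClass k}

section classes

variable (C : TheoryData.{u, v, 0} 𝒱 ℚ) {A B E V W X Y Z : 𝒱.Obj}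

/-- The fundamental class. -/
noncomputable def one (X : 𝒱.Obj) : C.A X := 1

/-- The power `h^j`. -/
noncomputable def pw (h : C.A X) (j : ℕ) : C.A X := h ^ j

/-- The class `x` is a multiple of `y`. -/
def IsMultiple (x y : C.A X) : Prop := ∃ q : ℚ, x = q • y

/-- The zero-cycle `x` on `X` has degree `q`: for all `Y` the push-forward of `x × Y` to `Y` is `q`
times the fundamental class of `Y`. -/
def HasDegree (x : C.A X) (q : ℚ) : Prop :=
  ∀ Y : 𝒱.Obj, C.down (snd X Y) (C.up (fst X Y) x) = q • one C Y ∧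
    C.down (fst Y X) (C.up (snd Y X) x) = q • one C Y

/-- The external product `a × b`. -/
noncomputable def ext (a : C.A X) (b : C.A Y) : C.A (X.prod Y) :=
  C.mul (C.up (fst X Y) a) (C.up (snd X Y) b)

/-- The composition of the correspondences `Γ : X → Y` and `Δ : Y → Z`. -/
noncomputable def comp (Γ : C.A (X.prod Y)) (Δ : C.A (Y.prod Z)) : C.A (X.prod Z) :=
  C.down (prodMap (fst X Y) (𝟙 Z))
    (C.mul (C.up (prodMap (snd X Y) (𝟙 Z)) Δ) (C.up (fst (X.prod Y) Z) Γ))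

/-- The graph of a morphism. -/
noncomputable def graph (f : X ⟶ Y) : C.A (X.prod Y) := C.down (Obj.lift (𝟙 X) f) (one C X)

/-- The transpose of the graph of a morphism. -/
noncomputable def cograph (f : X ⟶ Y) : C.A (Y.prod X) := C.down (Obj.lift f (𝟙 X)) (one C X)

/-- The class `(1 / D) ∑ h^j × h^(n-j)`. -/
noncomputable def trivOf (h : C.A X) (n : ℕ) (D : ℚ) : C.A (X.prod X) :=
  D⁻¹ • ∑ j ∈ Finset.range (n + 1), ext C (pw C h j) (pw C h (n - j))

/-- The class `Δ - (1 / D) ∑ h^j × h^(n-j)`. -/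
noncomputable def primOf (h : C.A X) (n : ℕ) (D : ℚ) : C.A (X.prod X) :=
  graph C (𝟙 X) - trivOf C h n D

/-- The correspondence `Γ : X → Y` is a linear combination of correspondences `X → Z → Y` which
factor through the twist by `m ≥ c` of a variety `Z`, that is, which map `CH_i(X)` to `CH_(i-m)(Z)` and
then to `CH_i(Y)`. -/
def IsTwisted (c : ℕ) (Γ : C.A (X.prod Y)) : Prop :=
  Γ ∈ Submodule.span ℚ {Γ | ∃ (Z : 𝒱.Obj) (m : ℕ) (α : C.A (X.prod Z)) (β : C.A (Z.prod Y)), c ≤ m ∧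
    C.Deg ((Z.dim : ℤ) + m) α ∧ C.Deg ((Y.dim : ℤ) - m) β ∧ Γ = comp C α β}

/-- The formula for the diagonal of the blow-up `π : W → B` of a centre `Z` of codimension two, with
exceptional divisor `j : E → W`, `σ : E → Z`. -/
def BlowUpFormula (π : W ⟶ B) (j : E ⟶ W) (σ : E ⟶ Z) : Prop :=
  graph C (𝟙 W) = comp C (graph C π) (cograph C π) -
    comp C (comp C (cograph C j) (graph C σ)) (comp C (cograph C σ) (graph C j))

/-- The formula `π^* a_* = a'_* + j_* σ^* b^*` for a divisor `a : A → B` which contains the centre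
`b : Z → A` of the blow-up `π : W → B`, with strict transform `a' : A → W`. -/
def StrictFormula (π : W ⟶ B) (j : E ⟶ W) (σ : E ⟶ Z) (a : A ⟶ B) (a' : A ⟶ W) (b : Z ⟶ A) :
    Prop :=
  comp C (graph C a) (cograph C π) =
    graph C a' + comp C (cograph C b) (comp C (cograph C σ) (graph C j))

/-- The image of `i : Y → X` has the class `h^n`, and `i^* h = h'`. -/
def IsSection (i : Y ⟶ X) (h : C.A X) (n : ℕ) (h' : C.A Y) : Prop :=
  C.down i (one C Y) = pw C h n ∧ C.up i h = h'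

/-- The formula `q^* h = π^* (h₁ × 1) + π^* (1 × h₂) - [E]`. -/
def LinearFormula (q : W ⟶ V) (π : W ⟶ A.prod B) (j : E ⟶ W) (h : C.A V) (h₁ : C.A A)
    (h₂ : C.A B) : Prop :=
  C.up q h = C.up π (ext C h₁ (one C B)) + C.up π (ext C (one C A) h₂) - C.down j (one C E)

/-- The average of the graphs of the automorphisms `γ g` is the class `t`. -/
def IsAverage {G : Type} [Fintype G] (γ : G → (X ≅ X)) (t : C.A (X.prod X)) : Prop :=
  ∑ g, graph C (γ g).hom = (Fintype.card G : ℚ) • t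

end classes

/-- The square `f ≫ g = f' ≫ g'` commutes. -/
def Square {W X Y Z : 𝒱.Obj} (f : W ⟶ X) (g : X ⟶ Z) (f' : W ⟶ Y) (g' : Y ⟶ Z) : Prop :=
  f ≫ g = f' ≫ g'

variable {C : TheoryData.{u, v, 0} 𝒱 ℚ}

/-- A polarized variety: a variety `X` with a divisor class `h` (the hyperplane class) such that
`h ^ dim X` has the degree `D ≠ 0`. -/
structure Pol (C : TheoryData.{u, v, 0} 𝒱 ℚ) where
  /-- the variety -/
  X : 𝒱.Obj
  /-- the class of the hyperplane sections -/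
  h : C.A X
  /-- the degree -/
  D : ℚ
  h_mem : C.Deg 1 h
  D_ne : D ≠ 0
  degree : HasDegree C (pw C h X.dim) D

/-- The trivial part `(1 / D) ∑ h^j × h^(n-j)` of the diagonal, `n = dim X`. -/
noncomputable def triv (P : Pol C) : C.A (P.X.prod P.X) := trivOf C P.h P.X.dim P.D

/-- The primitive part `Δ - (1 / D) ∑ h^j × h^(n-j)` of the diagonal. -/
noncomputable def prim (P : Pol C) : C.A (P.X.prod P.X) := primOf C P.h P.X.dim P.D

/-- The primitive part of the Chow motive of the polarized variety `P` is the direct factor of a sum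
of motives of varieties twisted by `m ≥ c`. -/
def HasConiveau (P : Pol C) (c : ℕ) : Prop := IsTwisted C c (prim P)

/-- The diagram of Shioda and Katsura attached to two forms `f(x)` and `g(y)` of degree `d`, for the
hypersurfaces `V = {f(x) + g(y) = 0}`, `X₁ = {f(x) = z^d}`, `X₂ = {-g(y) = w^d}`, `Y₁ = {f(x) = 0}` and
`Y₂ = {g(y) = 0}`. -/
structure Diagram (V X₁ X₂ Y₁ Y₂ : Pol C) where
  /-- the blow-up of `X₁ × X₂` along `Y₁ × Y₂` -/
  W : 𝒱.Obj
  /-- the exceptional divisor -/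
  E : 𝒱.Obj
  /-- the map `((x : z), (y : w)) ↦ (w x : z y)` -/
  q : W ⟶ V.X
  /-- the blow-down -/
  π : W ⟶ X₁.X.prod X₂.X
  /-- the inclusion of the exceptional divisor -/
  j : E ⟶ W
  /-- the projection of the exceptional divisor to the centre -/
  σ : E ⟶ Y₁.X.prod Y₂.X
  /-- the inclusion of `Y₁ = {z = 0}` in `X₁` -/
  s : Y₁.X ⟶ X₁.X
  /-- the inclusion of `Y₂ = {w = 0}` in `X₂` -/
  t : Y₂.X ⟶ X₂.X
  /-- the inclusion of `Y₁ = {y = 0}` in `V` -/
  i₁ : Y₁.X ⟶ V.X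
  /-- the inclusion of `Y₂ = {x = 0}` in `V` -/
  i₂ : Y₂.X ⟶ V.X
  /-- the strict transform of `Y₁ × X₂` -/
  j₁ : Y₁.X.prod X₂.X ⟶ W
  /-- the strict transform of `X₁ × Y₂` -/
  j₂ : X₁.X.prod Y₂.X ⟶ W
  /-- the group of the `d`-th roots of unity -/
  G : Type
  [fin : Fintype G]
  /-- the action on `X₁` (on the coordinate `z`) -/
  γ₁ : G → (X₁.X ≅ X₁.X)
  /-- the action on `X₂` (on the coordinate `w`) -/
  γ₂ : G → (X₂.X ≅ X₂.X)
  /-- the action on `W` -/
  γ : G → (W ≅ W)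

attribute [instance] Diagram.fin

variable {V X₁ X₂ Y₁ Y₂ : Pol C}

/-- `W` is the blow-up of `X₁ × X₂` along `Y₁ × Y₂` with exceptional divisor `E`: the formula for the
diagonal of a blow-up in codimension two, and the formulas `π^* (s × 1)_* = j₁_* + j_* σ^* (1 × t)^*` and
`π^* (1 × t)_* = j₂_* + j_* σ^* (s × 1)^*` for the divisors `Y₁ × X₂` and `X₁ × Y₂` through the centre. -/
structure Diagram.IsBlowUp (D : Diagram V X₁ X₂ Y₁ Y₂) : Prop where
  dim_W : D.W.dim = X₁.X.dim + X₂.X.dim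
  dim_E : D.E.dim + 1 = X₁.X.dim + X₂.X.dim
  dim_V : V.X.dim = X₁.X.dim + X₂.X.dim
  dim_X₁ : X₁.X.dim = Y₁.X.dim + 1
  dim_X₂ : X₂.X.dim = Y₂.X.dim + 1
  j_π : Square D.j D.π D.σ (prodMap D.s D.t)
  diag : BlowUpFormula C D.π D.j D.σ
  strict₁ : StrictFormula C D.π D.j D.σ (prodMap D.s (𝟙 X₂.X)) D.j₁ (prodMap (𝟙 Y₁.X) D.t)
  strict₂ : StrictFormula C D.π D.j D.σ (prodMap (𝟙 X₁.X) D.t) D.j₂ (prodMap D.s (𝟙 Y₂.X))

/-- The maps and the hyperplane classes: `Y₁`, `Y₂` are hyperplane sections of `X₁`, `X₂` and linear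
sections of `V`, the strict transforms of `Y₁ × X₂` and `X₁ × Y₂` are contracted to `Y₁` and `Y₂`, `q` is
generically finite, `q^* h = h₁ + h₂ - [E]`, and `h · CH^i(V)` is spanned by `h^(i+1)`. -/
structure Diagram.IsPolarized (D : Diagram V X₁ X₂ Y₁ Y₂) : Prop where
  s_h : IsSection C D.s X₁.h 1 Y₁.h
  t_h : IsSection C D.t X₂.h 1 Y₂.h
  i₁_h : IsSection C D.i₁ V.h (X₂.X.dim + 1) Y₁.h
  i₂_h : IsSection C D.i₂ V.h (X₁.X.dim + 1) Y₂.h
  j₁_q : Square D.j₁ D.q (fst Y₁.X X₂.X) D.i₁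
  j₂_q : Square D.j₂ D.q (snd X₁.X Y₂.X) D.i₂
  q_one : ∃ d : ℚ, d ≠ 0 ∧ C.down D.q (one C D.W) = d • one C V.X
  q_h : LinearFormula C D.q D.π D.j V.h X₁.h X₂.h
  mul_h : ∀ (i : ℕ) (x : C.A V.X), C.Deg i x → IsMultiple C (C.mul V.h x) (pw C V.h (i + 1))

/-- The group action: `π` is equivariant, `q` is invariant, and the average over the group is the
trivial part of the diagonal for `X₁` and `X₂` (their quotients are projective spaces). -/
structure Diagram.IsEquivariant (D : Diagram V X₁ X₂ Y₁ Y₂) : Prop where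
  nonempty : Nonempty D.G
  γ_π : ∀ g, Square (D.γ g).hom D.π D.π (prodMap (D.γ₁ g).hom (D.γ₂ g).hom)
  γ_q : ∀ g, (D.γ g).hom ≫ D.q = D.q
  γ₁_h : ∀ g, C.up (D.γ₁ g).hom X₁.h = X₁.h
  γ₂_h : ∀ g, C.up (D.γ₂ g).hom X₂.h = X₂.h
  avg₁ : IsAverage C D.γ₁ (triv X₁)
  avg₂ : IsAverage C D.γ₂ (triv X₂)

/-- There is a diagram of Shioda and Katsura for the five polarized varieties. -/
def ShiodaKatsura (V X₁ X₂ Y₁ Y₂ : Pol C) : Prop :=
  ∃ D : Diagram V X₁ X₂ Y₁ Y₂, D.IsBlowUp ∧ D.IsPolarized ∧ D.IsEquivariant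

/-- The hypersurfaces attached to a sequence of forms `f_0, f_1, ...` of degree `d` in disjoint sets
of variables: `y r = {f_r = 0}`, `x r = {f_r = z^d}`, `x' r = {f_r = z^d + w^d}`, and, for the sums
`F_r = f_0 + ... + f_r`, `Y r = {F_r = 0}` and `X r = {F_r = z^d}`. They are related by the
diagrams of Shioda and Katsura for `F_r` and `f_(r+1)`, and for `F_r` and `f_(r+1) - z^d`. The
coniveaus of `x r`, `x' r` and `y r` are at least `α r`, `α r` and `α r - 1`; if `f_r` has at least `d`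
variables one can take `α r = 1`, as `x r` and `x' r` are Fano. -/
structure IsTower (α : ℕ → ℕ) (Y X y x x' : ℕ → Pol C) : Prop where
  Y_zero : Y 0 = y 0
  X_zero : X 0 = x 0
  skY : ∀ r, ShiodaKatsura (Y (r + 1)) (X r) (x (r + 1)) (Y r) (y (r + 1))
  skX : ∀ r, ShiodaKatsura (X (r + 1)) (X r) (x' (r + 1)) (Y r) (x (r + 1))
  con_x : ∀ r, HasConiveau (x r) (α r)
  con_x' : ∀ r, HasConiveau (x' r) (α r)
  con_y : ∀ r, HasConiveau (y r) (α r - 1)

/-- The cycles of codimension `i ≤ c`, `i < n / 2`, on `V` are multiples of `h^i`, `n = dim V`. -/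
def HartshorneUpTo (c : ℕ) (V : Pol C) : Prop :=
  ∀ i : ℕ, i ≤ c → 2 * i < V.X.dim → ∀ x : C.A V.X, C.Deg i x → IsMultiple C x (pw C V.h i)

/-- The cycles of dimension `i < c` on `V` are multiples of `h^(n-i)`, `n = dim V`. -/
def BlochUpTo (c : ℕ) (V : Pol C) : Prop :=
  ∀ i : ℕ, i < c → i ≤ V.X.dim → ∀ x : C.A V.X, C.Deg ((V.X.dim - i : ℕ) : ℤ) x →
    IsMultiple C x (pw C V.h (V.X.dim - i))

variable {K : Type w} [Field K] (H : WeilTheoryData.{u, v, w} C K)

/-- The primitive part of `V` has cohomology in the middle degree only (Lefschetz). -/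
def IsLefschetz (V : Pol C) : Prop := ∀ m : ℤ, m ≠ V.X.dim → Kills H (prim V) m

/-- The theory of the Picard variety: a correspondence `Γ` of degree zero from `Z` to `Z'` which acts as
zero on `H^1` acts as zero on the homologically trivial divisor classes, with rational
coefficients. -/
def PicardProperty : Prop :=
  ∀ (Z Z' : 𝒱.Obj) (Γ : C.A (Z.prod Z')), C.Deg Z.dim Γ → Kills H Γ 1 →
    ∀ y : C.A Z, C.Deg 1 y → H.cl y = 0 → C.act Γ y = 0

end Pool.Agent.Y107.SJ
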